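import Pool.Agent.V1149.GB.Ex3

/-!
# Cubic-strand Betti numbers of graph curves and shortest cycles: a counterexample

The definitions are in `Pool/Agent/V1149/GB/Defs.lean`.
-/

namespace Pool.Agent.Results.MP_0dc0f9_ag.ThetaWithPendant

open Pool.Agent.V1149.GB

/-- There are a graph `G` with the properties of the problem that contains a cycle and has
`γ - 2 ≤ p = d - 2 g - 1`, and a graph curve of `G` in `P^n`, `n = d - g`, for which `b_{γ-2,γ}` is
not the number of `γ`-cycles of `G` (here `γ` is the girth). -/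
theorem result (k : Type) [Field k] [IsAlgClosed k] [CharZero k] :
    ∃ (V : Type) (_ : Fintype V) (G : SimpleGraph V) (n : ℕ)
      (U : V → Submodule k (Fin (n + 1) → k)),
      Admissible G ∧ ¬ G.IsAcyclic ∧
      (G.girth : ℤ) - 2 ≤ (Nat.card V : ℤ) - 2 * genus G - 1 ∧
      (n : ℤ) = (Nat.card V : ℤ) - genus G ∧
      IsGraphCurve G U ∧
      betti (vanIdeal U) (G.girth - 2) G.girth ≠ numCycles G G.girth := by
  refine ⟨Fin 6, inferInstance, Ex.G, 4, Ex.U (k := k),
    ⟨Ex.connected, Ex.planar, Ex.degree_le, Ex.subgraphCond⟩, ?_, ?_, ?_,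
    Ex.isGraphCurve three_ne_zero two_ne_zero, ?_⟩
  · rw [← SimpleGraph.girth_eq_zero, Ex.girth_eq]
    norm_num
  · rw [Ex.girth_eq, Ex.genus_eq]
    simp
  · rw [Ex.genus_eq]
    simp
  · rw [Ex.girth_eq, Ex.numCycles_eq]
    exact Ex.betti_ne_one

end Pool.Agent.Results.MP_0dc0f9_ag.ThetaWithPendant
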